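import Mathlib
import Pool.Graph.R_seed8.Y86.EP.Kum
import Pool.Graph.R_seed8.Y279.EP.Up
import Pool.Graph.R_seed8.Y925.EP.Tower
import Pool.Graph.R_seed8.Y419.EP.Inert
import Pool.Graph.R_seed8.Y469.EP.Max
import Pool.Graph.R_seed8.Y920.ETC.GalH
import Pool.Graph.R_seed8.Y620.ET.Extv
import Pool.Graph.R_seed8.Y37.ET.Max2
import Pool.Agent.H403.Z.Conv

set_option autoImplicit false

/-! # MP_600e55_nt: a gap for the number of generators of open subgroups

Let `F` contain a primitive `p`-th root of unity and a `p`-th root of `-1`, and let `F*/F*^p` have at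
least `p²` elements.  The following are equivalent:

* `F` has a valuation ring `O` with `p ∈ O*`, `1 + m ⊆ F*^p` and `O* F*^p ≠ F*`;
* some class `c ≠ 1` of `F*/F*^p` is norm-rigid: `N(F(c^(1/p))) = ⟨c⟩ F*^p`;
* some finite subextension of the maximal `p`-extension `F(p)` has a norm-rigid class.

If `F*/F*^p` is finite, these are equivalent to `|K*/K*^p| = |F*/F*^p|` for one proper finite
subextension `K` of `F(p)/F`, and to `|K*/K*^p| < [K : F]^(p-1) |F*/F*^p|` for one finite
subextension `K`.  They imply the conclusion of Q1: `G_F(p)` is the decomposition group of a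
valuation with nontrivial inertia.  In terms of `G = G_F(p)`: if `d(U) < d(G) + (p-1) log_p [G : U]`
for one open subgroup `U`, then the conclusion of Q1 holds for `G`.

Outline. Let `L = F(θ)`, `θ^p = c`, have degree `p` and generator `σ`. As `(σ - 1)^(p-1)` is the norm
modulo `p`-th powers, Hilbert 90 gives `dim L*/L*^p ≥ dim F*/F*^p + (p - 1) (d - 1)` where `d` is the
dimension of the image of the norm group of `L` in `F*/F*^p`. So if there is no such growth, then
`c` is norm-rigid. Then `L* = ⟨θ⟩ F* L*^p`. Let `x ∈ L*` lie outside of `H = F* L*^p`. Then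
`1 - x = x^j g h^p` with `g ∈ F*`, and `x` is a norm from `L(g^(1/p))`. So `N(x) ∈ c^i F*^p`, `i ≠ 0`,
is a norm from `F(g^(1/p))`, and `g ∈ N(L) ⊆ L*^p`. Hence `H` and the groups `⟨x⟩ L*^p`, `x ∉ H`,
are a partition of `L*` which respects sums, and `L` has a valuation ring as above. It descends to
`F`: if it is not stable under `σ`, then all units of the compositum with its conjugate are
`p`-th powers by weak approximation. -/

namespace Pool.Agent.H403.Old.GeneratorGap

/-- the group of `p`-th powers of `F*` -/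
def powers (F : Type) [Field F] (p : ℕ) : Subgroup Fˣ := (powMonoidHom p : Fˣ →* Fˣ).range

open Polynomial in
/-- the norms to `F` of the units of the algebra `F[X]/(X^p - a)`: the norm group of the field
`F(a^(1/p))` if `a` is not a `p`-th power -/
noncomputable def normGroup {F : Type} [Field F] (p : ℕ) (a : Fˣ) : Subgroup Fˣ :=
  (Units.map (Algebra.norm F : AdjoinRoot (X ^ p - C (a : F)) →* F)).range

/-- `c` is not a `p`-th power, and the norm group of `F(c^(1/p))` is `⟨c⟩ F*^p` -/
def IsNormRigid {F : Type} [Field F] (p : ℕ) (c : Fˣ) : Prop :=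
  c ∉ powers F p ∧ normGroup p c = Subgroup.zpowers c ⊔ powers F p

/-- `K` is contained in a finite Galois extension of `F` of `p`-power degree: the finite
subextensions of the maximal `p`-extension -/
def IsFinitePExtension (p : ℕ) {F : Type} [Field F]
    (K : IntermediateField F (AlgebraicClosure F)) : Prop :=
  ∃ L : IntermediateField F (AlgebraicClosure F), K ≤ L ∧
    FiniteDimensional F L ∧ IsGalois F L ∧ ∃ k : ℕ, Module.finrank F L = p ^ k

/-- `K` is the compositum of the finite Galois extensions of `F` of `p`-power degree -/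
def IsMaximalPExtension (p : ℕ) {F : Type} [Field F]
    (K : IntermediateField F (AlgebraicClosure F)) : Prop :=
  K = sSup {L : IntermediateField F (AlgebraicClosure F) |
    FiniteDimensional F L ∧ IsGalois F L ∧ ∃ k : ℕ, Module.finrank F L = p ^ k}

/-- `H` is the decomposition group in `Gal(K/F)` of a valuation of `K`, and the inertia group is
not trivial -/
def IsDecompositionGroup {F : Type} [Field F] {K : IntermediateField F (AlgebraicClosure F)}
    (H : Subgroup (↥K ≃ₐ[F] ↥K)) : Prop :=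
  ∃ (Γ : Type) (_ : LinearOrderedCommGroupWithZero Γ) (w : Valuation K Γ),
    (∀ σ : ↥K ≃ₐ[F] ↥K, σ ∈ H ↔ ∀ x : ↥K, (w (σ x) ≤ 1 ↔ w x ≤ 1)) ∧
    ∃ σ ∈ H, σ ≠ 1 ∧ ∀ x : ↥K, w x ≤ 1 → w (σ x - x) < 1

/-- `G` is the free pro-`p` product of its subgroups `H i` (for a pro-`p` group `G` and closed
`H i`) -/
def IsFreeProduct (p : ℕ) {G : Type} [Group G] [TopologicalSpace G] {n : ℕ}
    (H : Fin n → Subgroup G) : Prop :=
  ∀ (P : Type) [Group P] [Finite P], (∃ k : ℕ, Nat.card P = p ^ k) →
    ∀ φ : (i : Fin n) → (H i →* P), (∀ i, IsOpen ((φ i).ker : Set (H i))) →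
      ∃! ψ : G →* P, IsOpen (ψ.ker : Set G) ∧ ∀ i, ∀ x : H i, ψ (x : G) = φ i x

/-- the conclusion of Q1: `Gal(K/F)` is the free pro-`p` product of finitely many closed subgroups
of type (i), (ii) or (iii) -/
def ConclusionOfQ1 (p : ℕ) [Fact p.Prime] {F : Type} [Field F]
    (K : IntermediateField F (AlgebraicClosure F)) : Prop :=
  ∃ (n : ℕ) (H : Fin n → Subgroup (↥K ≃ₐ[F] ↥K)),
    (∀ i, IsClosed (H i : Set (↥K ≃ₐ[F] ↥K))) ∧ IsFreeProduct p H ∧
    ∀ i, Nonempty (H i ≃ₜ* Multiplicative (PadicInt p)) ∨ IsDecompositionGroup (H i) ∨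
      (p = 2 ∧ Nat.card (H i) = 2)

/-- `p` is a unit of `O`, `1 + m ⊆ F*^p`, and `O* F*^p ≠ F*` -/
structure IsCompatible {F : Type} [Field F] (p : ℕ) (O : ValuationSubring F) : Prop where
  inv_mem : (p : F)⁻¹ ∈ O
  one_add : ∀ x : F, x ∈ O → x⁻¹ ∉ O → ∃ y : F, y ^ p = 1 + x
  ne_top : O.unitGroup ⊔ powers F p ≠ ⊤

theorem result (p : ℕ) [Fact p.Prime] (F : Type) [Field F] (hζ : ∃ ζ : F, IsPrimitiveRoot ζ p)
    (hneg : (-1 : Fˣ) ∈ powers F p) (h1 : (powers F p).index ≠ 1) (hp : (powers F p).index ≠ p) :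
    -- norm-rigid classes in finite extensions
    List.TFAE
      [∃ O : ValuationSubring F, IsCompatible p O,
       ∃ c : Fˣ, IsNormRigid p c,
       ∃ K : IntermediateField F (AlgebraicClosure F), IsFinitePExtension p K ∧
         ∃ c : Kˣ, IsNormRigid p c] ∧
    -- the number of classes of finite extensions
    ((powers F p).index ≠ 0 → List.TFAE
      [∃ O : ValuationSubring F, IsCompatible p O,
       ∃ K : IntermediateField F (AlgebraicClosure F), IsFinitePExtension p K ∧ K ≠ ⊥ ∧
         (powers K p).index = (powers F p).index,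
       ∃ K : IntermediateField F (AlgebraicClosure F), IsFinitePExtension p K ∧
         (powers K p).index < Module.finrank F K ^ (p - 1) * (powers F p).index]) ∧
    -- the Galois group
    ((∃ O : ValuationSubring F, IsCompatible p O) →
      ∀ K : IntermediateField F (AlgebraicClosure F), IsMaximalPExtension p K →
        IsDecompositionGroup (⊤ : Subgroup (↥K ≃ₐ[F] ↥K)) ∧ ConclusionOfQ1 p K) := by
  have hprime : p.Prime := Fact.out
  have hbig : Pool.Agent.H403.Z.Big F p := ⟨h1, hp⟩
  have hpF : (p : F) ≠ 0 := by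
    obtain ⟨ζ, hζ⟩ := hζ
    have : NeZero p := ⟨hprime.ne_zero⟩
    exact hζ.neZero'.ne
  have hgood : (∃ O : ValuationSubring F, IsCompatible p O) ↔ Pool.Agent.H403.Z.Good F p := by
    constructor
    · rintro ⟨O, hO⟩
      exact ⟨O, ⟨hO.inv_mem, hpF, hO.one_add⟩, hO.ne_top⟩
    · rintro ⟨O, hO, hne⟩
      exact ⟨O, hO.1, hO.2.2, hne⟩
  -- passing to `IntermediateField F L`
  have htow : ∀ K : IntermediateField F (AlgebraicClosure F), IsFinitePExtension p K →
      (∃ ζ : K, IsPrimitiveRoot ζ p) ∧ (-1 : Kˣ) ∈ powers K p ∧ Pool.Agent.H403.Z.Big K p ∧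
      (Pool.Agent.H403.Z.Good K p → Pool.Agent.H403.Z.Good F p) ∧
      ((powers F p).index ≠ 0 → Pool.Agent.H403.Z.Good F p ∨
        Module.finrank F K ^ (p - 1) * (powers F p).index ≤ (powers K p).index) := by
    rintro K ⟨L, hKL, hfd, hgal, k, hk⟩
    let e := IntermediateField.restrictAlgEquiv hKL
    obtain ⟨h2, h3, h4⟩ := Pool.Agent.H403.Z.tower hk hζ hneg _
      (IntermediateField.restrict hKL) rfl
    have he : Module.finrank F (IntermediateField.restrict hKL) = Module.finrank F K :=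
      e.toLinearEquiv.finrank_eq.symm
    have hi : (powers (IntermediateField.restrict hKL) p).index = (powers K p).index :=
      (Pool.Agent.H403.Z.index_iso e.toRingEquiv).symm
    refine ⟨?_, ?_, ?_, ?_, ?_⟩
    · obtain ⟨ζ, hζ⟩ := hζ
      exact ⟨_, hζ.map_of_injective (algebraMap F K).injective⟩
    · obtain ⟨i, hi⟩ := hneg
      refine ⟨Units.map (algebraMap F K : F →* K) i, ?_⟩
      have hi' : i ^ p = -1 := hi
      change (Units.map (algebraMap F K : F →* K) i) ^ p = -1
      rw [← map_pow, hi']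
      ext
      simp
    · have h5 := h3 hbig
      exact ⟨fun h6 => h5.1 (hi.trans h6), fun h6 => h5.2 (hi.trans h6)⟩
    · exact fun h => h2 (Pool.Agent.H403.Z.good_iso e.toRingEquiv h)
    · intro h
      rcases h4 hbig h with h5 | ⟨-, h5⟩
      · exact Or.inl h5
      · right
        rw [he] at h5
        exact h5.trans hi.le
  have hbot : IsFinitePExtension p (⊥ : IntermediateField F (AlgebraicClosure F)) :=
    ⟨⊥, le_rfl, inferInstance, inferInstance, 0, by rw [IntermediateField.finrank_bot, pow_zero]⟩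
  have hrig : ∀ (K : Type) [Field K], (∃ ζ : K, IsPrimitiveRoot ζ p) → (-1 : Kˣ) ∈ powers K p →
      Pool.Agent.H403.Z.Big K p → (∃ c : Kˣ, IsNormRigid p c) → Pool.Agent.H403.Z.Good K p := by
    intro K _ h2 h3 h4 ⟨c, hc, hc'⟩
    exact Pool.Agent.H403.Z.good_of_rigid h2 h3 h4 hc hc'.le
  refine ⟨?_, fun hfin => ?_, fun hex K hK => ?_⟩
  · tfae_have 1 → 2 := by
      intro h
      obtain ⟨c, hc, hc'⟩ := Pool.Agent.H403.Z.rigid_of_good hζ hneg (hgood.1 h)
      refine ⟨c, hc, le_antisymm hc' (sup_le ?_ ?_)⟩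
      · rw [Subgroup.zpowers_le]
        exact Pool.Agent.H403.Z.self_mem_nmG hprime.pos hneg c
      · exact Pool.Agent.H403.Z.pwG_le_nmG hprime.pos c
    tfae_have 2 → 1 := fun h => hgood.2 (hrig F hζ hneg hbig h)
    tfae_have 1 → 3 := by
      intro h
      obtain ⟨h2, h3, h4, -, -⟩ := htow ⊥ hbot
      have h5 : Pool.Agent.H403.Z.Good (⊥ : IntermediateField F (AlgebraicClosure F)) p :=
        Pool.Agent.H403.Z.good_iso
          (IntermediateField.botEquiv F (AlgebraicClosure F)).symm.toRingEquiv (hgood.1 h)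
      obtain ⟨c, hc, hc'⟩ := Pool.Agent.H403.Z.rigid_of_good h2 h3 h5
      refine ⟨⊥, hbot, c, hc, le_antisymm hc' (sup_le ?_ ?_)⟩
      · rw [Subgroup.zpowers_le]
        exact Pool.Agent.H403.Z.self_mem_nmG hprime.pos h3 c
      · exact Pool.Agent.H403.Z.pwG_le_nmG hprime.pos c
    tfae_have 3 → 1 := by
      rintro ⟨K, hK, h⟩
      obtain ⟨h2, h3, h4, h5, -⟩ := htow K hK
      exact hgood.2 (h5 (hrig K h2 h3 h4 h))
    tfae_finish
  · tfae_have 1 → 2 := by
      intro h
      obtain ⟨c, hc, hc'⟩ := Pool.Agent.H403.Z.rigid_of_good hζ hneg (hgood.1 h)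
      obtain ⟨K, hfd, hgal, hdeg, hidx⟩ := Pool.Agent.H403.Z.exists_ext hζ hneg hfin hc hc'
      refine ⟨K, ⟨K, le_rfl, hfd, hgal, 1, by rw [hdeg, pow_one]⟩, ?_, hidx⟩
      rintro rfl
      rw [IntermediateField.finrank_bot] at hdeg
      exact hprime.one_lt.ne hdeg
    tfae_have 2 → 3 := by
      rintro ⟨K, hK, hne, hidx⟩
      refine ⟨K, hK, ?_⟩
      rw [hidx]
      obtain ⟨L, hKL, hfd, -⟩ := hK
      have hfK : FiniteDimensional F K := Module.Finite.of_injective
        (IntermediateField.inclusion hKL).toLinearMap (IntermediateField.inclusion hKL).injective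
      have h2 : 1 < Module.finrank F K := by
        have h3 : 0 < Module.finrank F K := Module.finrank_pos
        have h4 : Module.finrank F K ≠ 1 := fun h =>
          hne (IntermediateField.finrank_eq_one_iff.1 h)
        omega
      have h3 : 1 < Module.finrank F K ^ (p - 1) :=
        Nat.one_lt_pow (by have := hprime.two_le; omega) h2
      have h4 : 0 < (powers F p).index := Nat.pos_of_ne_zero hfin
      exact lt_mul_left h4 h3
    tfae_have 3 → 1 := by
      rintro ⟨K, hK, hlt⟩
      obtain ⟨-, -, -, -, h5⟩ := htow K hK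
      rcases h5 hfin with h6 | h6
      · exact hgood.2 h6
      · exact absurd hlt (not_lt.2 h6)
    tfae_finish
  · obtain ⟨O, hO⟩ := hex
    obtain ⟨c, hc⟩ : ∃ c : Fˣ, c ∉ O.unitGroup ⊔ powers F p := by
      by_contra hc
      push Not at hc
      exact hO.ne_top (eq_top_iff.2 fun c _ => hc c)
    by_cases hp2 : p = 2
    · subst hp2
      have h2 : (2 : F) ≠ 0 := by exact_mod_cast hpF
      have hS : Pool.Agent.Y920.ETC.Sqr O := ⟨by exact_mod_cast hO.inv_mem, h2, fun x hx hx' => by
        obtain ⟨y, hy⟩ := hO.one_add x hx hx'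
        exact ⟨y, by rw [← hy, pow_two]⟩⟩
      have hD : Pool.Agent.Y920.ETC.DecInert F K :=
        Pool.Agent.Y920.ETC.decInert Pool.Agent.Y620.ET.t_EXTV Pool.Agent.Y37.ET.t_MAX2 F h2 O hS
          ⟨c, ?_⟩ K hK
      · obtain ⟨n, H, hcl, hfree, hty⟩ := Pool.Agent.Y920.ETC.efratTwo F K hD
        refine ⟨?_, n, H, hcl, fun P _ _ hP φ hφ => hfree P hP φ hφ, fun i => ?_⟩
        · obtain ⟨Γ, hΓ, w, hw, σ, hσ, hσw⟩ := hD
          exact ⟨Γ, hΓ, w, fun τ => ⟨fun _ x => hw τ x, fun _ => trivial⟩, σ, trivial, hσ, hσw⟩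
        · rcases hty i with h | h | h
          · exact Or.inl h
          · exact Or.inr (Or.inl h)
          · exact Or.inr (Or.inr ⟨rfl, h.2⟩)
      · rintro f ⟨h6, h7⟩
        apply hc
        have h8 : c * f ^ 2 ∈ O.unitGroup :=
          Pool.Agent.E8helper26.ETC.val_eq_one_of h6 (by rwa [← Units.val_inv_eq_inv_val])
        have h9 : f ^ 2 ∈ powers F 2 := ⟨f, rfl⟩
        have h10 := mul_mem (show c * f ^ 2 ∈ O.unitGroup ⊔ powers F 2 from
          Subgroup.mem_sup_left h8)
          (inv_mem (show f ^ 2 ∈ O.unitGroup ⊔ powers F 2 from Subgroup.mem_sup_right h9))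
        rwa [mul_inv_cancel_right] at h10
    · have hG : Pool.Agent.Y920.EP.AllG := ⟨Pool.Agent.Y86.EP.t_KUM, Pool.Agent.Y279.EP.t_UP,
        Pool.Agent.Y925.EP.t_TOWER', Pool.Agent.Y419.EP.t_INERT', Pool.Agent.Y469.EP.t_MAX'⟩
      have hD : Pool.Agent.Y920.EP.DecInert F K := Pool.Agent.Y920.EP.decInert hG p hprime hp2 F hζ
        O ⟨hO.inv_mem, hpF, hO.one_add⟩ ⟨c, ?_⟩ K hK
      · refine ⟨?_, Pool.Agent.Y920.EP.efratP p F K hD⟩
        obtain ⟨Γ, hΓ, w, hw, σ, hσ, hσw⟩ := hD
        exact ⟨Γ, hΓ, w, fun τ => ⟨fun _ x => hw τ x, fun _ => trivial⟩, σ, trivial, hσ, hσw⟩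
      · rintro f ⟨h6, h7⟩
        apply hc
        have h8 : c * f ^ p ∈ O.unitGroup := Pool.Agent.R675.TP.mem_unitGroup_of h6 h7
        have h9 : f ^ p ∈ powers F p := ⟨f, rfl⟩
        have h10 := mul_mem (show c * f ^ p ∈ O.unitGroup ⊔ powers F p from
          Subgroup.mem_sup_left h8)
          (inv_mem (show f ^ p ∈ O.unitGroup ⊔ powers F p from Subgroup.mem_sup_right h9))
        rwa [mul_inv_cancel_right] at h10

end Pool.Agent.H403.Old.GeneratorGap
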