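import Mathlib
import Pool.Agent.H403.M.Cy

/-! # Cyclic generation for classes of exponent four split by towers of quadratic extensions

For a field `F` of characteristic different from two without a square root of `-1`, every Brauer class `x` with
`x ^ 4 = 1` which is split by a finite tower of quadratic extensions is a product of Brauer classes of cyclic
algebras of degree four. -/

set_option autoImplicit false
set_option linter.all false

namespace Pool.Agent.H403.Old.TowerRes

open Pool.Agent.H403.M

theorem result : ∀ (F : Type) [Field F], (2 : F) ≠ 0 → (∀ c : F, c ^ 2 ≠ -1) → ∀ x : BrauerGroup.{0, 0} F,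
    TwoSplit F x → x ^ 4 = 1 → x ∈ Subgroup.closure (Cyc4 F) :=
  fun F _ h2 hi x hx h4 => main_tower hx h2 hi h4

end Pool.Agent.H403.Old.TowerRes
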